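import Mathlib

/-!
# The sponge problem for topological embeddings

Conventions are those of the problem file: an embedding is a continuous injective map that is a
homeomorphism onto its image, and length-increasing means that for every rectifiable curve `γ`
in `U` one has `length (f ∘ γ) ≥ length γ`.  The length of a curve `[0,1] → X` is its total
variation (Mathlib's `eVariationOn`), so it is the supremum of the inscribed polygon lengths.

* `g` is an explicit continuous function `ℝ → ℝ` of infinite variation on every interval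
  (`g_var`).
* For `n ≥ 2` the map `F` with `F_i = x_i + g (x_{i+1})` for `i < n-1` and
  `F_{n-1} = x_{n-1} + g (F_0)` is a product of shears, hence a homeomorphism of `ℝⁿ`, and it sends
  every non-constant rectifiable curve to a curve of infinite length (`coord_top`); it is then
  compressed into the open unit ball by `x ↦ c * arctan x` in each coordinate.
* For `n = 1` the embedding is `x ↦ vol (U ∩ (-∞, x))`, a translation on every component of `U`.

No smoothness of the embedding, and no rectifiability of the image curves, is claimed for `n ≥ 2`.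
-/

open Set Filter Topology
open scoped ENNReal NNReal

namespace Pool.Agent.Results.MP_ecd4e3_gt.TopologicalSponge

/-- Comparison of variations, multiplicative form. -/
lemma eVar_le_mul {α X Y : Type*} [LinearOrder α] [PseudoEMetricSpace X] [PseudoEMetricSpace Y]
    {f : α → X} {h : α → Y} {s : Set α} {C : ℝ≥0∞}
    (H : ∀ x ∈ s, ∀ y ∈ s, edist (f x) (f y) ≤ C * edist (h x) (h y)) :
    eVariationOn f s ≤ C * eVariationOn h s := by
  refine iSup_le fun p => ?_
  calc ∑ i ∈ Finset.range p.1, edist (f ((p.2 : ℕ → α) (i + 1))) (f ((p.2 : ℕ → α) i))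
      ≤ ∑ i ∈ Finset.range p.1, C * edist (h ((p.2 : ℕ → α) (i + 1))) (h ((p.2 : ℕ → α) i)) :=
        Finset.sum_le_sum fun i _ => H _ (p.2.2.2 _) _ (p.2.2.2 _)
    _ = C * ∑ i ∈ Finset.range p.1, edist (h ((p.2 : ℕ → α) (i + 1))) (h ((p.2 : ℕ → α) i)) := by
        rw [Finset.mul_sum]
    _ ≤ C * eVariationOn h s := by
        gcongr
        exact eVariationOn.sum_le p.2.2.1 (fun i => p.2.2.2 i)

/-- Comparison of variations, additive form. -/
lemma eVar_le_add {α X Y Z : Type*} [LinearOrder α] [PseudoEMetricSpace X]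
    [PseudoEMetricSpace Y] [PseudoEMetricSpace Z]
    {f : α → X} {h : α → Y} {k : α → Z} {s : Set α}
    (H : ∀ x ∈ s, ∀ y ∈ s, edist (f x) (f y) ≤ edist (h x) (h y) + edist (k x) (k y)) :
    eVariationOn f s ≤ eVariationOn h s + eVariationOn k s := by
  refine iSup_le fun p => ?_
  calc ∑ i ∈ Finset.range p.1, edist (f ((p.2 : ℕ → α) (i + 1))) (f ((p.2 : ℕ → α) i))
      ≤ ∑ i ∈ Finset.range p.1, (edist (h ((p.2 : ℕ → α) (i + 1))) (h ((p.2 : ℕ → α) i))
          + edist (k ((p.2 : ℕ → α) (i + 1))) (k ((p.2 : ℕ → α) i))) :=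
        Finset.sum_le_sum fun i _ => H _ (p.2.2.2 _) _ (p.2.2.2 _)
    _ = ∑ i ∈ Finset.range p.1, edist (h ((p.2 : ℕ → α) (i + 1))) (h ((p.2 : ℕ → α) i))
          + ∑ i ∈ Finset.range p.1, edist (k ((p.2 : ℕ → α) (i + 1))) (k ((p.2 : ℕ → α) i)) := by
        rw [Finset.sum_add_distrib]
    _ ≤ eVariationOn h s + eVariationOn k s := by
        gcongr
        · exact eVariationOn.sum_le p.2.2.1 (fun i => p.2.2.2 i)
        · exact eVariationOn.sum_le p.2.2.1 (fun i => p.2.2.2 i)

/-- If a continuous `y` climbs from `y a` to `y b` and `g` has infinite variation on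
`[y a, y b]`, then `g ∘ y` has infinite variation on `[a, b]`. -/
lemma up {g y : ℝ → ℝ} (hy : Continuous y) {a b : ℝ} (hab : a ≤ b)
    (hg : eVariationOn g (Icc (y a) (y b)) = ⊤) : eVariationOn (g ∘ y) (Icc a b) = ⊤ := by
  let S : ℝ → Set ℝ := fun s => {t | t ∈ Icc a b ∧ s ≤ y t}
  let σ : ℝ → ℝ := fun s => sInf (S s)
  have hne : ∀ s ∈ Icc (y a) (y b), (S s).Nonempty := fun s hs => ⟨b, ⟨hab, le_rfl⟩, hs.2⟩
  have hbdd : ∀ s, BddBelow (S s) := fun s => ⟨a, fun t ht => ht.1.1⟩
  have hcl : ∀ s, IsClosed (S s) := fun s =>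
    isClosed_Icc.inter (isClosed_le continuous_const hy)
  have hmem : ∀ s ∈ Icc (y a) (y b), σ s ∈ S s := fun s hs =>
    (hcl s).csInf_mem (hne s hs) (hbdd s)
  have hval : ∀ s ∈ Icc (y a) (y b), y (σ s) = s := by
    intro s hs
    obtain ⟨h1, h2⟩ := hmem s hs
    refine le_antisymm ?_ h2
    by_contra hcon
    push Not at hcon
    have : s ∈ Icc (y a) (y (σ s)) := ⟨hs.1, hcon.le⟩
    obtain ⟨t, ht, hts⟩ := intermediate_value_Icc h1.1 hy.continuousOn this
    have h3 : σ s ≤ t := csInf_le (hbdd s) ⟨⟨ht.1, ht.2.trans h1.2⟩, hts.ge⟩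
    have h4 : t = σ s := le_antisymm ht.2 h3
    rw [h4] at hts
    exact absurd hts hcon.ne'
  have hmono : MonotoneOn σ (Icc (y a) (y b)) := by
    intro s hs t ht hst
    exact csInf_le_csInf (hbdd s) (hne t ht) fun r hr => ⟨hr.1, hst.trans hr.2⟩
  have hmaps : MapsTo σ (Icc (y a) (y b)) (Icc a b) := fun s hs => (hmem s hs).1
  have := eVariationOn.comp_le_of_monotoneOn (g ∘ y) σ hmono hmaps
  rw [eVariationOn.congr (g := g) (fun s hs => by simp [hval s hs])] at this
  rw [hg] at this
  exact top_le_iff.1 this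

lemma updown {g y : ℝ → ℝ} (hy : Continuous y) {a b : ℝ} (hab : a ≤ b) (hlt : y a ≠ y b)
    (hg : ∀ c d, c < d → eVariationOn g (Icc c d) = ⊤) : eVariationOn (g ∘ y) (Icc a b) = ⊤ := by
  rcases lt_or_gt_of_ne hlt with h | h
  · exact up hy hab (hg _ _ h)
  · have h1 : eVariationOn (fun x => g (-x)) (Icc (-y a) (-y b)) = ⊤ := by
      have := eVariationOn.comp_le_of_antitoneOn (fun x => g (-x)) (s := Icc (-y a) (-y b))
        (t := Icc (y b) (y a)) (fun x : ℝ => -x) (fun x _ z _ hxz => neg_le_neg hxz)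
        (fun x hx => ⟨neg_le_neg hx.2, neg_le_neg hx.1⟩)
      rw [eVariationOn.congr (g := g) (fun s hs => by simp)] at this
      rw [hg _ _ h] at this
      exact top_le_iff.1 this
    have := up (g := fun x => g (-x)) (y := fun t => - y t) hy.neg hab h1
    rw [eVariationOn.congr (g := g ∘ y) (fun s hs => by simp)] at this
    exact this

/-- Distance to the nearest integer. -/
noncomputable def tri (x : ℝ) : ℝ := |x - round x|

lemma tri_nonneg (x : ℝ) : 0 ≤ tri x := abs_nonneg _

lemma tri_le (x : ℝ) : tri x ≤ 1 / 2 := abs_sub_round x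

lemma tri_int (k : ℤ) : tri k = 0 := by simp [tri]

lemma tri_le_abs_sub_int (x : ℝ) (k : ℤ) : tri x ≤ |x - k| := round_le x k

lemma tri_half (k : ℤ) : tri (k + 1 / 2) = 1 / 2 := by
  refine le_antisymm (tri_le _) ?_
  unfold tri
  set r := round ((k : ℝ) + 1 / 2)
  have h : ((k - r : ℤ) : ℝ) + 1 / 2 = (k : ℝ) + 1 / 2 - r := by push_cast; ring
  rw [← h]
  rcases le_or_gt 0 (k - r) with h0 | h0
  · have : (0 : ℝ) ≤ ((k - r : ℤ) : ℝ) := by exact_mod_cast h0
    rw [abs_of_nonneg (by linarith)]; linarith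
  · have h1 : k - r ≤ -1 := by lia
    have : ((k - r : ℤ) : ℝ) ≤ -1 := by exact_mod_cast h1
    rw [abs_of_nonpos (by linarith)]; linarith

lemma tri_lip (x y : ℝ) : |tri x - tri y| ≤ |x - y| := by
  have key : ∀ x y : ℝ, tri x - tri y ≤ |x - y| := by
    intro x y
    have h1 := tri_le_abs_sub_int x (round y)
    have h2 : |x - round y| ≤ |x - y| + |y - round y| := abs_sub_le _ _ _
    unfold tri at *
    linarith
  rw [abs_le]
  constructor
  · have := key y x
    rw [abs_sub_comm] at this
    linarith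
  · exact key x y

lemma tri_cont : Continuous tri := by
  have : LipschitzWith 1 tri := LipschitzWith.of_dist_le_mul fun x y => by
    simpa [Real.dist_eq] using tri_lip x y
  exact this.continuous

/-- A continuous function of infinite variation on every interval, see `g_var`. -/
noncomputable def g (x : ℝ) : ℝ := ∑' n : ℕ, (1 / 2 : ℝ) ^ n * tri (8 ^ n * x)

lemma g_cont : Continuous g := by
  refine continuous_tsum (u := fun n : ℕ => (1 / 2 : ℝ) ^ n) (fun n => ?_)
    (summable_geometric_of_lt_one (by norm_num) (by norm_num)) fun n x => ?_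
  · exact continuous_const.mul (tri_cont.comp (continuous_const.mul continuous_id))
  · rw [norm_mul, Real.norm_of_nonneg (by positivity), Real.norm_of_nonneg (tri_nonneg _)]
    have := tri_le (8 ^ n * x)
    have h2 : (0 : ℝ) < (1 / 2) ^ n := by positivity
    nlinarith

lemma g_grid (m : ℕ) (j : ℤ) : g (j / (2 * 8 ^ m)) =
    ∑ n ∈ Finset.range (m + 1), (1 / 2 : ℝ) ^ n * tri (8 ^ n * (j / (2 * 8 ^ m))) := by
  unfold g
  refine tsum_eq_sum fun n hn => ?_
  have hn' : m + 1 ≤ n := by simpa using hn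
  obtain ⟨k, rfl⟩ := Nat.exists_eq_add_of_le hn'
  have : (8 : ℝ) ^ (m + 1 + k) * (j / (2 * 8 ^ m)) = ((4 * 8 ^ k * j : ℤ) : ℝ) := by
    push_cast
    field_simp
    ring
  rw [this, tri_int, mul_zero]

lemma g_step (m : ℕ) (j : ℤ) :
    (1 / 2 : ℝ) ^ m / 3 ≤ |g ((j + 1 : ℤ) / (2 * 8 ^ m)) - g (j / (2 * 8 ^ m))| := by
  rw [g_grid, g_grid, Finset.sum_range_succ, Finset.sum_range_succ]
  set A : ℝ := ∑ n ∈ Finset.range m, (1 / 2 : ℝ) ^ n * tri (8 ^ n * (((j + 1 : ℤ) : ℝ) / (2 * 8 ^ m)))
  set B : ℝ := ∑ n ∈ Finset.range m, (1 / 2 : ℝ) ^ n * tri (8 ^ n * ((j : ℝ) / (2 * 8 ^ m)))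
  have h1 : |A - B| ≤ (1 / 2 : ℝ) ^ m / 6 := by
    have : A - B = ∑ n ∈ Finset.range m, (1 / 2 : ℝ) ^ n *
        (tri (8 ^ n * (((j + 1 : ℤ) : ℝ) / (2 * 8 ^ m))) - tri (8 ^ n * ((j : ℝ) / (2 * 8 ^ m)))) := by
      simp only [A, B, ← Finset.sum_sub_distrib, mul_sub]
    rw [this]
    calc |∑ n ∈ Finset.range m, (1 / 2 : ℝ) ^ n *
        (tri (8 ^ n * (((j + 1 : ℤ) : ℝ) / (2 * 8 ^ m))) - tri (8 ^ n * ((j : ℝ) / (2 * 8 ^ m))))|
        ≤ ∑ n ∈ Finset.range m, (1 / 2 : ℝ) ^ n * (8 ^ n / (2 * 8 ^ m)) := by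
          refine (Finset.abs_sum_le_sum_abs _ _).trans (Finset.sum_le_sum fun n _ => ?_)
          rw [abs_mul, abs_of_pos (show (0 : ℝ) < (1 / 2) ^ n by positivity)]
          gcongr
          refine (tri_lip _ _).trans (le_of_eq ?_)
          rw [← mul_sub, ← sub_div, abs_of_nonneg]
          · push_cast; ring
          · push_cast; ring_nf; positivity
      _ = (∑ n ∈ Finset.range m, (4 : ℝ) ^ n) / (2 * 8 ^ m) := by
          rw [Finset.sum_div]
          refine Finset.sum_congr rfl fun n _ => ?_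
          rw [mul_div_assoc', ← mul_pow]
          norm_num
      _ = ((4 : ℝ) ^ m - 1) / 3 / (2 * 8 ^ m) := by
          rw [geom_sum_eq (by norm_num)]
          norm_num
      _ ≤ (4 : ℝ) ^ m / 3 / (2 * 8 ^ m) := by
          gcongr
          linarith
      _ = (1 / 2 : ℝ) ^ m / 6 := by
          have : (8 : ℝ) ^ m = 4 ^ m * 2 ^ m := by rw [← mul_pow]; norm_num
          rw [this, one_div, inv_pow]
          field_simp
          norm_num
  have e1 : (8 : ℝ) ^ m * (((j + 1 : ℤ) : ℝ) / (2 * 8 ^ m)) = ((j + 1 : ℤ) : ℝ) / 2 := by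
    field_simp
  have e2 : (8 : ℝ) ^ m * ((j : ℝ) / (2 * 8 ^ m)) = (j : ℝ) / 2 := by
    field_simp
  rw [e1, e2]
  have h2 : |tri (((j + 1 : ℤ) : ℝ) / 2) - tri ((j : ℝ) / 2)| = 1 / 2 := by
    rcases Int.even_or_odd' j with ⟨k, rfl | rfl⟩
    · have a1 : (((2 * k + 1 : ℤ)) : ℝ) / 2 = k + 1 / 2 := by push_cast; ring
      have a2 : (((2 * k : ℤ)) : ℝ) / 2 = (k : ℝ) := by push_cast; ring
      rw [a1, a2, tri_half, tri_int]
      norm_num
    · have a1 : (((2 * k + 1 : ℤ)) : ℝ) / 2 = k + 1 / 2 := by push_cast; ring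
      have a2 : (((2 * k + 1 + 1 : ℤ)) : ℝ) / 2 = ((k + 1 : ℤ) : ℝ) := by push_cast; ring
      rw [a1, a2, tri_half, tri_int]
      norm_num
  set P := tri (((j + 1 : ℤ) : ℝ) / 2)
  set Q := tri ((j : ℝ) / 2)
  have h3 : A + (1 / 2) ^ m * P - (B + (1 / 2) ^ m * Q) = (A - B) + (1 / 2) ^ m * (P - Q) := by ring
  rw [h3]
  have h4 : |(1 / 2 : ℝ) ^ m * (P - Q)| = (1 / 2) ^ m / 2 := by
    rw [abs_mul, h2, abs_of_pos (by positivity)]; ring
  have h5 : |(1 / 2 : ℝ) ^ m * (P - Q)| ≤ |(A - B) + (1 / 2) ^ m * (P - Q)| + |A - B| := by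
    have := abs_sub_le ((A - B) + (1 / 2 : ℝ) ^ m * (P - Q)) 0 (A - B)
    simp only [sub_zero, zero_sub, abs_neg, add_sub_cancel_left] at this
    exact this
  have h6 : (0 : ℝ) < (1 / 2) ^ m := by positivity
  linarith

/-- `g` has infinite variation on every non-degenerate interval. -/
lemma g_var (a b : ℝ) (hab : a < b) : eVariationOn g (Icc a b) = ⊤ := by
  by_contra hne
  set V := (eVariationOn g (Icc a b)).toReal with hV
  have hVe : eVariationOn g (Icc a b) = ENNReal.ofReal V := (ENNReal.ofReal_toReal hne).symm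
  have hV0 : 0 ≤ V := ENNReal.toReal_nonneg
  -- for each `m`, a lower bound
  have key : ∀ m : ℕ, (b - a) * 4 ^ m ≤ 3 * V + 1 := by
    intro m
    set N : ℝ := 2 * 8 ^ m with hN
    have hNpos : 0 < N := by positivity
    set j0 : ℤ := ⌈a * N⌉
    set K : ℕ := ⌊b * N - j0⌋₊ with hK
    rcases lt_or_ge (b * N - j0) 0 with hneg | hpos
    · -- few points: the interval is short
      have h1 : (j0 : ℝ) < a * N + 1 := Int.ceil_lt_add_one _
      have h2 : (b - a) * N < 1 := by nlinarith
      have h3 : (4 : ℝ) ^ m ≤ N := by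
        have : (4 : ℝ) ^ m ≤ 8 ^ m := by gcongr; norm_num
        have : (0 : ℝ) < 8 ^ m := by positivity
        linarith
      nlinarith
    · have hKle : (K : ℝ) ≤ b * N - j0 := Nat.floor_le hpos
      have hKgt : b * N - j0 < K + 1 := Nat.lt_floor_add_one _
      let u : ℕ → ℝ := fun i => ((j0 + i : ℤ) : ℝ) / N
      have hu : Monotone u := by
        intro i i' h
        simp only [u]
        gcongr
      have hmem : ∀ i ≤ K, u i ∈ Icc a b := by
        intro i hi
        have hi' : (i : ℝ) ≤ K := by exact_mod_cast hi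
        have h1 : a * N ≤ j0 := Int.le_ceil _
        constructor
        · simp only [u]
          rw [le_div_iff₀ hNpos]
          push_cast
          have : (0 : ℝ) ≤ i := by positivity
          linarith
        · simp only [u]
          rw [div_le_iff₀ hNpos]
          push_cast
          linarith
      have hsum := eVariationOn.sum_le_of_monotoneOn_Iic (f := g) (s := Icc a b) (n := K) (u := u) (hu.monotoneOn _) hmem
      have hstep : ∀ i ∈ Finset.range K, ENNReal.ofReal ((1 / 2 : ℝ) ^ m / 3) ≤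
          edist (g (u (i + 1))) (g (u i)) := by
        intro i _
        rw [edist_dist]
        refine ENNReal.ofReal_le_ofReal ?_
        rw [Real.dist_eq]
        have := g_step m (j0 + i)
        simp only [u]
        push_cast at this ⊢
        rw [← add_assoc]
        exact this
      have h1 := (Finset.sum_le_sum hstep).trans hsum
      rw [Finset.sum_const, Finset.card_range, nsmul_eq_mul, hVe,
        ← ENNReal.ofReal_natCast, ← ENNReal.ofReal_mul (by positivity),
        ENNReal.ofReal_le_ofReal_iff hV0] at h1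
      have h2 : (j0 : ℝ) < a * N + 1 := Int.ceil_lt_add_one _
      have h3 : (b - a) * N < K + 2 := by nlinarith
      have h8 : (8 : ℝ) ^ m = 4 ^ m * 2 ^ m := by rw [← mul_pow]; norm_num
      have h22 : (2 : ℝ) ^ m * (1 / 2) ^ m = 1 := by rw [← mul_pow]; norm_num
      have h12 : (1 / 2 : ℝ) ^ m ≤ 1 := pow_le_one₀ (by norm_num) (by norm_num)
      have h4 : (b - a) * N * (1 / 2) ^ m = 2 * ((b - a) * 4 ^ m) := by
        rw [hN, h8]
        linear_combination (b - a) * 2 * 4 ^ m * h22
      have h5 : (b - a) * N * (1 / 2) ^ m ≤ (K + 2) * (1 / 2) ^ m := by gcongr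
      have h6 : (K : ℝ) * ((1 / 2) ^ m / 3) = K * (1 / 2) ^ m / 3 := by ring
      nlinarith
  have htend : Tendsto (fun m : ℕ => (b - a) * (4 : ℝ) ^ m) atTop atTop :=
    (tendsto_pow_atTop_atTop_of_one_lt (by norm_num)).const_mul_atTop (by linarith)
  obtain ⟨m, hm⟩ := (htend.eventually_gt_atTop (3 * V + 1)).exists
  exact absurd (key m) (not_le.2 hm)


/-- The elementary shear `x_i ↦ x_i + g (x_j)` as a homeomorphism. -/
noncomputable def shear {n : ℕ} (i j : Fin n) (hij : j ≠ i) : (Fin n → ℝ) ≃ₜ (Fin n → ℝ) where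
  toFun x := Function.update x i (x i + g (x j))
  invFun x := Function.update x i (x i - g (x j))
  left_inv x := by
    ext k
    rcases eq_or_ne k i with rfl | hk
    · simp [Function.update_of_ne hij]
    · simp [Function.update_of_ne hk]
  right_inv x := by
    ext k
    rcases eq_or_ne k i with rfl | hk
    · simp [Function.update_of_ne hij]
    · simp [Function.update_of_ne hk]
  continuous_toFun := by
    refine Continuous.update continuous_id i ?_
    exact (continuous_apply i).add (g_cont.comp (continuous_apply j))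
  continuous_invFun := by
    refine Continuous.update continuous_id i ?_
    exact (continuous_apply i).sub (g_cont.comp (continuous_apply j))

lemma shear_same {n : ℕ} (i j : Fin n) (hij : j ≠ i) (x : Fin n → ℝ) :
    shear i j hij x i = x i + g (x j) := by
  simp [shear]

lemma shear_ne {n : ℕ} (i j : Fin n) (hij : j ≠ i) (x : Fin n → ℝ) {k : Fin n} (hk : k ≠ i) :
    shear i j hij x k = x k := by
  simp [shear, hk]

lemma exists_chain (m k : ℕ) (hk : k ≤ m + 1) :
    ∃ h : (Fin (m + 2) → ℝ) ≃ₜ (Fin (m + 2) → ℝ), ∀ x i,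
      h x i = if i.val < k then x i + g (x (i + 1)) else x i := by
  induction k with
  | zero => exact ⟨Homeomorph.refl _, fun x i => by simp⟩
  | succ k ih =>
    obtain ⟨h, hh⟩ := ih (by lia)
    have hlt : k < m + 2 := by lia
    let a : Fin (m + 2) := ⟨k, hlt⟩
    have hval : (a + 1).val = k + 1 := by
      rw [Fin.val_add_one_of_lt]
      exact Fin.lt_def.2 (by simp [a]; lia)
    have hne : a + 1 ≠ a := by
      intro hc
      have := congrArg Fin.val hc
      rw [hval] at this
      simp [a] at this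
    refine ⟨h.trans (shear a (a + 1) hne), fun x i => ?_⟩
    rw [Homeomorph.trans_apply]
    rcases eq_or_ne i a with rfl | hi
    · rw [shear_same, hh, hh, if_neg (by simp [a]), if_neg (by rw [hval]; lia),
        if_pos (by simp [a])]
    · rw [shear_ne _ _ _ _ hi, hh]
      have hi' : i.val ≠ k := fun hc => hi (Fin.ext hc)
      by_cases h1 : i.val < k
      · rw [if_pos h1, if_pos (by lia)]
      · rw [if_neg h1, if_neg (by lia)]

lemma exists_F (m : ℕ) :
    ∃ F : (Fin (m + 2) → ℝ) ≃ₜ (Fin (m + 2) → ℝ), ∀ x,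
      (∀ i, i ≠ Fin.last (m + 1) → F x i = x i + g (x (i + 1))) ∧
      F x (Fin.last (m + 1)) = x (Fin.last (m + 1)) + g (F x 0) := by
  obtain ⟨h, hh⟩ := exists_chain m (m + 1) le_rfl
  have hne : (0 : Fin (m + 2)) ≠ Fin.last (m + 1) := by
    intro hc
    have := congrArg Fin.val hc
    simp at this
  refine ⟨h.trans (shear (Fin.last (m + 1)) 0 hne), fun x => ⟨fun i hi => ?_, ?_⟩⟩
  · rw [Homeomorph.trans_apply, shear_ne _ _ _ _ hi, hh, if_pos]
    have : i.val ≠ m + 1 := fun hc => hi (Fin.ext (by simpa using hc))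
    have := i.2
    lia
  · rw [Homeomorph.trans_apply, shear_same, shear_ne _ _ _ _ hne, hh, if_neg (by simp)]

/-- The length of a curve `γ : [0,1] → X`. -/
noncomputable def len {X : Type*} [PseudoEMetricSpace X] (γ : unitInterval → X) : ℝ≥0∞ :=
  eVariationOn γ Set.univ

lemma exists_seg {γ : unitInterval → ℝ} (hγ : Continuous γ) {s t : unitInterval}
    (hst : γ s ≠ γ t) : eVariationOn (g ∘ γ) univ = ⊤ := by
  wlog hle : s ≤ t generalizing s t
  · exact this (Ne.symm hst) (le_of_not_ge hle)
  let p : ℝ → unitInterval := Set.projIcc 0 1 zero_le_one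
  have hp : Continuous p := continuous_projIcc
  have h1 := updown (y := γ ∘ p) (g := g) (hγ.comp hp) (a := (s : ℝ)) (b := (t : ℝ)) hle
    (by simpa [p] using hst) g_var
  have h2 := eVariationOn.comp_le_of_monotoneOn (g ∘ γ) (s := univ) (t := Icc (s : ℝ) t) p
    ((monotone_projIcc _).monotoneOn _) (fun _ _ => mem_univ _)
  have h3 : eVariationOn (g ∘ (γ ∘ p)) (Icc (s : ℝ) t) = eVariationOn ((g ∘ γ) ∘ p) (Icc (s : ℝ) t) :=
    rfl
  rw [← h3, h1] at h2
  exact top_le_iff.1 h2

/-- Every non-constant curve whose coordinates have finite variation is sent by `F` to a curve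
one of whose coordinates has infinite variation. -/
lemma coord_top {m : ℕ} {F : (Fin (m + 2) → ℝ) → (Fin (m + 2) → ℝ)} (hFc : Continuous F)
    (hF : ∀ x, (∀ i, i ≠ Fin.last (m + 1) → F x i = x i + g (x (i + 1))) ∧
      F x (Fin.last (m + 1)) = x (Fin.last (m + 1)) + g (F x 0))
    {γ : unitInterval → (Fin (m + 2) → ℝ)} (hγ : Continuous γ)
    (hfin : ∀ i, eVariationOn (fun t => γ t i) univ ≠ ⊤) {s t : unitInterval} (hst : γ s ≠ γ t) :
    ∃ k, eVariationOn (fun t => F (γ t) k) univ = ⊤ := by
  have hadd : ∀ (u v w : unitInterval → ℝ), (∀ r, u r = v r + w r) →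
      eVariationOn w univ ≤ eVariationOn u univ + eVariationOn v univ := by
    intro u v w h
    refine eVar_le_add fun x _ y _ => ?_
    have hw : ∀ r, w r = u r - v r := fun r => by rw [h r]; ring
    rw [hw, hw, edist_dist, edist_dist, edist_dist, ← ENNReal.ofReal_add dist_nonneg dist_nonneg]
    refine ENNReal.ofReal_le_ofReal ?_
    rw [Real.dist_eq, Real.dist_eq, Real.dist_eq]
    have : u x - v x - (u y - v y) = (u x - u y) + -(v x - v y) := by ring
    rw [this]
    refine (abs_add_le _ _).trans ?_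
    rw [abs_neg]
  by_cases hcase : ∃ i : Fin (m + 2), i ≠ 0 ∧ ∃ s t, γ s i ≠ γ t i
  · obtain ⟨i, hi0, s', t', hne⟩ := hcase
    have hi1 : i.val ≠ 0 := fun hc => hi0 (Fin.ext (by simpa using hc))
    let k : Fin (m + 2) := ⟨i.val - 1, by lia⟩
    have hk : k ≠ Fin.last (m + 1) := by
      intro hc
      have := congrArg Fin.val hc
      simp [k] at this
      lia
    have hk1 : k + 1 = i := by
      apply Fin.ext
      rw [Fin.val_add_one_of_lt (lt_of_le_of_ne (Fin.le_last _) hk)]
      simp [k]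
      lia
    refine ⟨k, ?_⟩
    have h1 := exists_seg (γ := fun t => γ t i) ((continuous_apply i).comp hγ) hne
    have h2 := hadd (fun r => F (γ r) k) (fun r => γ r k) (g ∘ fun r => γ r i)
      (fun r => by rw [(hF (γ r)).1 k hk, hk1]; rfl)
    rw [h1, top_le_iff, ENNReal.add_eq_top] at h2
    exact h2.resolve_right (hfin k)
  · push Not at hcase
    have h0 : γ s 0 ≠ γ t 0 := by
      intro h0
      apply hst
      ext i
      rcases eq_or_ne i 0 with rfl | hi
      · exact h0
      · exact hcase i hi s t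
    have hne : (0 : Fin (m + 2)) ≠ Fin.last (m + 1) := by
      intro hc
      have := congrArg Fin.val hc
      simp at this
    have hF0 : F (γ s) 0 ≠ F (γ t) 0 := by
      rw [(hF _).1 0 hne, (hF _).1 0 hne, hcase (0 + 1) (by simp) s t]
      intro hc
      exact h0 (add_right_cancel hc)
    refine ⟨Fin.last (m + 1), ?_⟩
    have h1 := exists_seg (γ := fun t => F (γ t) 0)
      ((continuous_apply 0).comp (hFc.comp hγ)) hF0
    have h2 := hadd (fun r => F (γ r) (Fin.last (m + 1))) (fun r => γ r (Fin.last (m + 1)))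
      (g ∘ fun r => F (γ r) 0) (fun r => (hF (γ r)).2)
    rw [h1, top_le_iff, ENNReal.add_eq_top] at h2
    exact h2.resolve_right (hfin _)

lemma arctan_lower {M a b : ℝ} (ha : |a| ≤ M) (hb : |b| ≤ M) :
    |a - b| ≤ (1 + M ^ 2) * |Real.arctan a - Real.arctan b| := by
  wlog hab : b ≤ a generalizing a b
  · rw [abs_sub_comm a b, abs_sub_comm (Real.arctan a)]
    exact this hb ha (le_of_not_ge hab)
  have hM : 0 ≤ M := (abs_nonneg _).trans ha
  have hpos : (0 : ℝ) < 1 + M ^ 2 := by positivity
  have hmono : MonotoneOn (fun x => Real.arctan x - x / (1 + M ^ 2)) (Icc (-M) M) := by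
    refine monotoneOn_of_deriv_nonneg (convex_Icc _ _) ?_ ?_ ?_
    · exact (Real.continuous_arctan.sub (continuous_id.div_const _)).continuousOn
    · exact ((Real.differentiable_arctan.sub (differentiable_id.div_const _))).differentiableOn
    · intro x hx
      rw [interior_Icc] at hx
      have hd : deriv (fun x => Real.arctan x - x / (1 + M ^ 2)) x = 1 / (1 + x ^ 2) - 1 / (1 + M ^ 2) := by
        have h1 := Real.hasDerivAt_arctan x
        have h2 := (hasDerivAt_id x).div_const (1 + M ^ 2)
        exact (h1.sub h2).deriv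
      rw [hd, sub_nonneg]
      apply one_div_le_one_div_of_le (by positivity)
      have : x ^ 2 ≤ M ^ 2 := sq_le_sq' hx.1.le hx.2.le
      linarith
  have h := hmono (abs_le.1 hb) (abs_le.1 ha) hab
  simp only at h
  have h1 : Real.arctan b ≤ Real.arctan a := Real.arctan_strictMono.monotone hab
  rw [abs_of_nonneg (sub_nonneg.2 hab), abs_of_nonneg (sub_nonneg.2 h1)]
  have h2 : (a - b) / (1 + M ^ 2) ≤ Real.arctan a - Real.arctan b := by
    rw [sub_div]; linarith
  rw [div_le_iff₀ hpos] at h2
  linarith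

lemma arctan_top {f : unitInterval → ℝ} (hf : Continuous f) (h : eVariationOn f univ = ⊤) :
    eVariationOn (fun t => Real.arctan (f t)) univ = ⊤ := by
  obtain ⟨M, hM⟩ : ∃ M, ∀ t, |f t| ≤ M := by
    obtain ⟨M, hM⟩ := (isCompact_univ (X := unitInterval)).exists_bound_of_continuousOn
      hf.continuousOn
    exact ⟨M, fun t => hM t (mem_univ t)⟩
  have h1 : eVariationOn f univ ≤ ENNReal.ofReal (1 + M ^ 2) *
      eVariationOn (fun t => Real.arctan (f t)) univ := by
    refine eVar_le_mul fun x _ y _ => ?_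
    rw [edist_dist, edist_dist, ← ENNReal.ofReal_mul (by positivity)]
    exact ENNReal.ofReal_le_ofReal (arctan_lower (hM x) (hM y))
  rw [h, top_le_iff] at h1
  by_contra hne
  exact ENNReal.mul_ne_top ENNReal.ofReal_ne_top hne h1


/-- A map `f` from an open set `U` of Euclidean space to the unit ball is *length-increasing* (in the
non-strict sense) if for every rectifiable curve `γ` in `U`, `length (f ∘ γ) ≥ length γ`. -/
def LengthIncreasing {n : ℕ} (U : Set (EuclideanSpace ℝ (Fin n)))
    (f : U → Metric.closedBall (0 : EuclideanSpace ℝ (Fin n)) 1) : Prop :=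
  ∀ γ : unitInterval → U, Continuous γ → len γ ≠ ⊤ → len γ ≤ len (f ∘ γ)

lemma coord_edist {n : ℕ} (x y : EuclideanSpace ℝ (Fin n)) (i : Fin n) :
    edist (x i) (y i) ≤ edist x y := by
  rw [edist_dist, edist_dist]
  refine ENNReal.ofReal_le_ofReal ?_
  rw [EuclideanSpace.dist_eq]
  refine Real.le_sqrt_of_sq_le ?_
  exact Finset.single_le_sum (f := fun i => dist (x i) (y i) ^ 2) (fun j _ => by positivity)
    (Finset.mem_univ i)

lemma eVar_coord {n : ℕ} (γ : unitInterval → EuclideanSpace ℝ (Fin n)) (i : Fin n) :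
    eVariationOn (fun t => γ t i) univ ≤ len γ := by
  have := eVar_le_mul (f := fun t => γ t i) (h := γ) (s := univ) (C := 1)
    (fun x _ y _ => by rw [one_mul]; exact coord_edist _ _ _)
  rwa [one_mul] at this

lemma high_dim (m : ℕ) : ∃ h : EuclideanSpace ℝ (Fin (m + 2)) → EuclideanSpace ℝ (Fin (m + 2)),
    IsEmbedding h ∧ (∀ x, ‖h x‖ < 1) ∧
    ∀ γ : unitInterval → EuclideanSpace ℝ (Fin (m + 2)), Continuous γ → len γ ≠ ⊤ →
      (∃ s t, γ s ≠ γ t) → len (h ∘ γ) = ⊤ := by
  obtain ⟨F, hF⟩ := exists_F m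
  let e := (EuclideanSpace.equiv (Fin (m + 2)) ℝ).toHomeomorph
  have he : ∀ x i, e x i = x i := fun x i => rfl
  have hes : ∀ x i, e.symm x i = x i := fun x i => rfl
  set c : ℝ := 1 / (2 * (m + 2)) with hc
  have hcpos : 0 < c := by positivity
  let A : (Fin (m + 2) → ℝ) → (Fin (m + 2) → ℝ) := Pi.map fun _ x => c * Real.arctan x
  have hA : IsEmbedding A := by
    refine IsEmbedding.piMap fun i => ?_
    have h1 : IsEmbedding Real.arctan :=
      Real.arctan_strictMono.isEmbedding_of_ordConnected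
        (by rw [Real.range_arctan]; exact ordConnected_Ioo)
    exact (Homeomorph.mulLeft₀ c hcpos.ne').isEmbedding.comp h1
  refine ⟨fun x => e.symm (A (F (e x))), ?_, ?_, ?_⟩
  · exact e.symm.isEmbedding.comp (hA.comp (F.isEmbedding.comp e.isEmbedding))
  · intro x
    rw [EuclideanSpace.norm_eq]
    refine (Real.sqrt_lt' one_pos).2 ?_
    have hterm : ∀ i ∈ Finset.univ, ‖(e.symm (A (F (e x)))) i‖ ^ 2 ≤ (c * 2) ^ 2 := by
      intro i _
      rw [hes]
      simp only [A, Pi.map_apply]
      rw [norm_mul, Real.norm_of_nonneg hcpos.le, mul_pow, mul_pow]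
      gcongr
      rw [Real.norm_eq_abs, abs_le]
      have h1 := Real.neg_pi_div_two_lt_arctan (F (e x) i)
      have h2 := Real.arctan_lt_pi_div_two (F (e x) i)
      have h3 := Real.pi_le_four
      constructor <;> linarith
    calc ∑ i, ‖(e.symm (A (F (e x)))) i‖ ^ 2 ≤ ∑ _i : Fin (m + 2), (c * 2) ^ 2 :=
          Finset.sum_le_sum hterm
      _ = (m + 2) * (c * 2) ^ 2 := by simp
      _ = 1 / (m + 2) := by rw [hc]; field_simp
      _ < 1 ^ 2 := by
          rw [one_pow, div_lt_one (by positivity)]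
          have : (0 : ℝ) ≤ m := by positivity
          linarith
  · rintro γ hγ hlen ⟨s, t, hst⟩
    have hfin : ∀ i, eVariationOn (fun t => e (γ t) i) univ ≠ ⊤ := fun i =>
      ne_top_of_le_ne_top hlen (eVar_coord γ i)
    obtain ⟨k, hk⟩ := coord_top (F := F) F.continuous hF (γ := fun t => e (γ t))
      (e.continuous.comp hγ) hfin (s := s) (t := t) (fun hc => hst (e.injective hc))
    have h1 := arctan_top (f := fun t => F (e (γ t)) k)
      ((continuous_apply k).comp (F.continuous.comp (e.continuous.comp hγ))) hk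
    have h2 := eVar_coord (fun t => e.symm (A (F (e (γ t))))) k
    have h3 : eVariationOn (fun t => Real.arctan (F (e (γ t)) k)) univ ≤
        ENNReal.ofReal (1 / c) * eVariationOn (fun t => (e.symm (A (F (e (γ t))))) k) univ := by
      refine eVar_le_mul fun x _ y _ => ?_
      rw [edist_dist, edist_dist, ← ENNReal.ofReal_mul (by positivity)]
      refine ENNReal.ofReal_le_ofReal ?_
      simp only [hes, A, Pi.map_apply, Real.dist_eq]
      rw [← mul_sub, abs_mul, abs_of_pos hcpos, ← mul_assoc, one_div,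
        inv_mul_cancel₀ hcpos.ne', one_mul]
    rw [h1, top_le_iff] at h3
    by_contra hne
    refine ENNReal.mul_ne_top ENNReal.ofReal_ne_top (ne_top_of_le_ne_top hne h2) h3

/-! ### dimension one -/

/-- The measure of the part of `U` to the left of `x`. -/
noncomputable def leftVol (U : Set ℝ) (x : ℝ) : ℝ := (MeasureTheory.volume (U ∩ Iio x)).toReal

lemma leftVol_sub {U : Set ℝ} (hfin : MeasureTheory.volume U ≠ ⊤)
    {x y : ℝ} (hxy : x ≤ y) (hU : Icc x y ⊆ U) : leftVol U y - leftVol U x = y - x := by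
  have h1 : U ∩ Iio y = (U ∩ Iio x) ∪ Ico x y := by
    ext z
    constructor
    · rintro ⟨hz, hzy⟩
      rcases lt_or_ge z x with h | h
      · exact Or.inl ⟨hz, h⟩
      · exact Or.inr ⟨h, hzy⟩
    · rintro (⟨hz, hzx⟩ | ⟨hz, hzy⟩)
      · exact ⟨hz, lt_of_lt_of_le hzx hxy⟩
      · exact ⟨hU ⟨hz, hzy.le⟩, hzy⟩
  have hdisj : Disjoint (U ∩ Iio x) (Ico x y) := by
    rw [Set.disjoint_left]
    rintro z ⟨_, hz⟩ ⟨hz', _⟩
    exact absurd hz (not_lt.2 hz')
  have hf1 : MeasureTheory.volume (U ∩ Iio x) ≠ ⊤ :=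
    ne_top_of_le_ne_top hfin (MeasureTheory.measure_mono inter_subset_left)
  unfold leftVol
  rw [h1, MeasureTheory.measure_union hdisj measurableSet_Ico, ENNReal.toReal_add hf1 (by simp),
    Real.volume_Ico, ENNReal.toReal_ofReal (by linarith)]
  ring

lemma leftVol_mono {U : Set ℝ} (hfin : MeasureTheory.volume U ≠ ⊤) : Monotone (leftVol U) := by
  intro x y hxy
  refine ENNReal.toReal_mono (ne_top_of_le_ne_top hfin (MeasureTheory.measure_mono inter_subset_left)) ?_
  exact MeasureTheory.measure_mono (inter_subset_inter_right _ (Iio_subset_Iio hxy))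

lemma leftVol_strict {U : Set ℝ} (hU : IsOpen U) (hfin : MeasureTheory.volume U ≠ ⊤) {x y : ℝ}
    (hx : x ∈ U) (hxy : x < y) : leftVol U x < leftVol U y := by
  obtain ⟨r, hr, hball⟩ := Metric.isOpen_iff.1 hU x hx
  set z := min (x + r / 2) y
  have hz1 : x < z := lt_min (by linarith) hxy
  have hsub : Icc x z ⊆ U := by
    intro w hw
    apply hball
    rw [Metric.mem_ball, Real.dist_eq, abs_of_nonneg (by linarith [hw.1])]
    have : w ≤ x + r / 2 := hw.2.trans (min_le_left _ _)
    linarith
  have h1 := leftVol_sub hfin hz1.le hsub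
  have h2 := leftVol_mono hfin (min_le_right (x + r / 2) y)
  have h3 : leftVol U z ≤ leftVol U y := h2
  linarith

lemma leftVol_range {U : Set ℝ} (hU : MeasureTheory.volume U ≤ 1) (x : ℝ) :
    0 ≤ leftVol U x ∧ leftVol U x ≤ 1 := by
  refine ⟨ENNReal.toReal_nonneg, ?_⟩
  have : MeasureTheory.volume (U ∩ Iio x) ≤ 1 :=
    (MeasureTheory.measure_mono inter_subset_left).trans hU
  have h := ENNReal.toReal_mono (b := 1) (by simp) this
  rwa [ENNReal.toReal_one] at h

lemma leftVol_open {U : Set ℝ} (hU : IsOpen U) (hfin : MeasureTheory.volume U ≠ ⊤) :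
    IsOpenEmbedding (fun x : U => leftVol U x) := by
  have hloc : ∀ x ∈ U, ∃ r > 0, Metric.ball x r ⊆ U ∧ ∀ y ∈ Metric.ball x r,
      leftVol U y = leftVol U x + (y - x) := by
    intro x hx
    obtain ⟨r, hr, hball⟩ := Metric.isOpen_iff.1 hU x hx
    refine ⟨r, hr, hball, fun y hy => ?_⟩
    have hconv : (Metric.ball x r).OrdConnected := by
      rw [Real.ball_eq_Ioo]; exact ordConnected_Ioo
    rcases le_total x y with h | h
    · have := leftVol_sub hfin h ((hconv.out (Metric.mem_ball_self hr) hy).trans hball)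
      linarith
    · have := leftVol_sub hfin h ((hconv.out hy (Metric.mem_ball_self hr)).trans hball)
      linarith
  refine IsOpenEmbedding.of_continuous_injective_isOpenMap ?_ ?_ ?_
  · rw [continuous_iff_continuousAt]
    rintro ⟨x, hx⟩
    obtain ⟨r, hr, _, hloc⟩ := hloc x hx
    have h1 : (fun y : U => leftVol U y) =ᶠ[𝓝 ⟨x, hx⟩] fun y : U => leftVol U x + ((y : ℝ) - x) := by
      have : {y : U | (y : ℝ) ∈ Metric.ball x r} ∈ 𝓝 (⟨x, hx⟩ : U) :=
        (Metric.isOpen_ball.preimage continuous_subtype_val).mem_nhds (by simpa using hr)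
      filter_upwards [this] with y hy
      exact hloc y hy
    refine ContinuousAt.congr ?_ h1.symm
    exact (continuous_const.add (continuous_subtype_val.sub continuous_const)).continuousAt
  · intro x y hxy
    rcases lt_trichotomy (x : ℝ) y with h | h | h
    · exact absurd hxy (leftVol_strict hU hfin x.2 h).ne
    · exact Subtype.ext h
    · exact absurd hxy (leftVol_strict hU hfin y.2 h).ne'
  · intro V hV
    rw [Metric.isOpen_iff]
    rintro _ ⟨⟨x, hx⟩, hxV, rfl⟩
    obtain ⟨r, hr, hb, hloc⟩ := hloc x hx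
    obtain ⟨r', hr', hV'⟩ := Metric.isOpen_iff.1 hV ⟨x, hx⟩ hxV
    refine ⟨min r r', lt_min hr hr', fun z hz => ?_⟩
    simp only at hz
    set y : ℝ := x + (z - leftVol U x)
    have hyd : dist y x = dist z (leftVol U x) := by
      simp [y, Real.dist_eq]
    have hy1 : y ∈ Metric.ball x r := by
      rw [Metric.mem_ball, hyd]
      exact lt_of_lt_of_le hz (min_le_left _ _)
    refine ⟨⟨y, hb hy1⟩, hV' ?_, ?_⟩
    · rw [Metric.mem_ball, Subtype.dist_eq, hyd]
      exact lt_of_lt_of_le hz (min_le_right _ _)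
    · simp only
      rw [hloc y hy1]
      simp [y]

lemma leftVol_length {U : Set ℝ} (hfin : MeasureTheory.volume U ≠ ⊤) {γ : unitInterval → ℝ}
    (hγ : Continuous γ) (hmem : ∀ t, γ t ∈ U) :
    eVariationOn (fun t => leftVol U (γ t)) univ = eVariationOn γ univ := by
  have hpre : IsPreconnected (range γ) := isPreconnected_range hγ
  have key : ∀ s t, edist (leftVol U (γ s)) (leftVol U (γ t)) = edist (γ s) (γ t) := by
    intro s t
    wlog hle : γ s ≤ γ t generalizing s t
    · rw [edist_comm, edist_comm (γ s)]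
      exact this t s (le_of_not_ge hle)
    have hsub : Icc (γ s) (γ t) ⊆ U := by
      refine (hpre.Icc_subset (mem_range_self s) (mem_range_self t)).trans ?_
      rintro _ ⟨r, rfl⟩
      exact hmem r
    have h1 := leftVol_sub hfin hle hsub
    rw [edist_comm, edist_comm (γ s), edist_dist, edist_dist, Real.dist_eq, Real.dist_eq, h1]
  refine le_antisymm ?_ ?_
  · have := eVar_le_mul (f := fun t => leftVol U (γ t)) (h := γ) (s := univ) (C := 1)
      (fun x _ y _ => by rw [one_mul, key])
    rwa [one_mul] at this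
  · have := eVar_le_mul (f := γ) (h := fun t => leftVol U (γ t)) (s := univ) (C := 1)
      (fun x _ y _ => by rw [one_mul, key])
    rwa [one_mul] at this


lemma dim_one (U : Set (EuclideanSpace ℝ (Fin 1))) (hU : IsOpen U)
    (hvol : MeasureTheory.volume U ≤ 1) :
    ∃ f : U → Metric.closedBall (0 : EuclideanSpace ℝ (Fin 1)) 1,
      IsEmbedding f ∧ LengthIncreasing U f := by
  let e : EuclideanSpace ℝ (Fin 1) ≃ₜ ℝ :=
    (EuclideanSpace.equiv (Fin 1) ℝ).toHomeomorph.trans (Homeomorph.funUnique (Fin 1) ℝ)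
  have he : ∀ x, e x = x 0 := fun x => rfl
  have hes : ∀ t, (e.symm t) 0 = t := fun t => by rw [← he, e.apply_symm_apply]
  have hedist : ∀ x y : EuclideanSpace ℝ (Fin 1), edist x y = edist (e x) (e y) := by
    intro x y
    rw [edist_dist, edist_dist, EuclideanSpace.dist_eq, he, he]
    congr 1
    simp
  set V : Set ℝ := e.symm ⁻¹' U with hVdef
  have hV : IsOpen V := hU.preimage e.symm.continuous
  have hVU : ∀ x, e x ∈ V ↔ x ∈ U := fun x => by simp [hVdef]
  have hvolV : MeasureTheory.volume V ≤ 1 := by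
    have h1 : MeasureTheory.MeasurePreserving (fun x : EuclideanSpace ℝ (Fin 1) => e x)
        MeasureTheory.volume MeasureTheory.volume :=
      (MeasureTheory.volume_preserving_funUnique (Fin 1) ℝ).comp
        (EuclideanSpace.volume_preserving_symm_measurableEquiv_toLp (Fin 1))
    have h2 := h1.measure_preimage hV.measurableSet.nullMeasurableSet
    have h3 : (fun x : EuclideanSpace ℝ (Fin 1) => e x) ⁻¹' V = U := by
      ext x; exact hVU x
    rw [h3] at h2
    rw [← h2]
    exact hvol
  have hfin : MeasureTheory.volume V ≠ ⊤ := ne_top_of_le_ne_top (by simp) hvolV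
  have hnorm : ∀ x, e.symm (leftVol V (e x)) ∈
      Metric.closedBall (0 : EuclideanSpace ℝ (Fin 1)) 1 := by
    intro x
    rw [mem_closedBall_zero_iff, EuclideanSpace.norm_eq]
    simp only [Fin.sum_univ_one]
    obtain ⟨h0, h1⟩ := leftVol_range hvolV (e x)
    rw [hes, Real.norm_of_nonneg h0]
    exact Real.sqrt_le_one.2 (pow_le_one₀ h0 h1)
  refine ⟨fun x => ⟨e.symm (leftVol V (e x)), hnorm x⟩, ?_, ?_⟩
  · have h1 : IsEmbedding (fun x : U => (⟨e x, (hVU x).2 x.2⟩ : V)) := by
      refine IsEmbedding.codRestrict ?_ V _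
      exact e.isEmbedding.comp IsEmbedding.subtypeVal
    have h2 : IsEmbedding (fun x : U => e.symm (leftVol V (e x))) :=
      e.symm.isEmbedding.comp ((leftVol_open hV hfin).isEmbedding.comp h1)
    exact h2.codRestrict _ _
  · intro γ hγ _
    have h1 : len γ = eVariationOn (fun t => e (γ t)) univ := by
      refine le_antisymm ?_ ?_
      · have := eVar_le_mul (f := γ) (h := fun t => e (γ t)) (s := univ) (C := 1)
          (fun x _ y _ => by rw [one_mul, ← hedist]; rfl)
        rwa [one_mul] at this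
      · have := eVar_le_mul (f := fun t => e (γ t)) (h := γ) (s := univ) (C := 1)
          (fun x _ y _ => by rw [one_mul, ← hedist]; rfl)
        rwa [one_mul] at this
    have h2 := leftVol_length (U := V) hfin (γ := fun t => e (γ t))
      (e.continuous.comp (continuous_subtype_val.comp hγ)) (fun t => (hVU _).2 (γ t).2)
    rw [h1, ← h2]
    have h3 := eVar_le_mul (f := fun t => leftVol V (e (γ t)))
      (h := (fun x : U => (⟨e.symm (leftVol V (e x)), hnorm x⟩ :
        Metric.closedBall (0 : EuclideanSpace ℝ (Fin 1)) 1)) ∘ γ) (s := univ) (C := 1)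
      (fun x _ y _ => by
        rw [one_mul]
        have h4 := hedist (e.symm (leftVol V (e (γ x)))) (e.symm (leftVol V (e (γ y))))
        rw [e.apply_symm_apply, e.apply_symm_apply] at h4
        exact h4.symm.le)
    rwa [one_mul] at h3

/-- **Guth's sponge problem for topological embeddings, affirmative in every dimension.**

(1) For every `n ≥ 1` there is `ε > 0` such that every open `U ⊆ ℝⁿ` of volume at most `ε` has a
length-increasing embedding (homeomorphism onto its image) into the closed unit ball.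

(2) For `n ≥ 2` the volume plays no role: there is one embedding `h` of the whole of `ℝⁿ` into the
open unit ball which sends every non-constant rectifiable curve to a curve of infinite length. -/
theorem result :
    (∀ n : ℕ, 1 ≤ n → ∃ ε : ℝ, 0 < ε ∧ ∀ U : Set (EuclideanSpace ℝ (Fin n)), IsOpen U →
      MeasureTheory.volume U ≤ ENNReal.ofReal ε →
        ∃ f : U → Metric.closedBall (0 : EuclideanSpace ℝ (Fin n)) 1,
          IsEmbedding f ∧ LengthIncreasing U f) ∧
    (∀ n : ℕ, 2 ≤ n → ∃ h : EuclideanSpace ℝ (Fin n) → EuclideanSpace ℝ (Fin n),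
      IsEmbedding h ∧ (∀ x, ‖h x‖ < 1) ∧
      ∀ γ : unitInterval → EuclideanSpace ℝ (Fin n), Continuous γ → len γ ≠ ⊤ →
        (∃ s t, γ s ≠ γ t) → len (h ∘ γ) = ⊤) := by
  have h2 : ∀ n : ℕ, 2 ≤ n → ∃ h : EuclideanSpace ℝ (Fin n) → EuclideanSpace ℝ (Fin n),
      IsEmbedding h ∧ (∀ x, ‖h x‖ < 1) ∧
      ∀ γ : unitInterval → EuclideanSpace ℝ (Fin n), Continuous γ → len γ ≠ ⊤ →
        (∃ s t, γ s ≠ γ t) → len (h ∘ γ) = ⊤ := by
    intro n hn
    obtain ⟨m, rfl⟩ := Nat.exists_eq_add_of_le hn
    rw [Nat.add_comm]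
    exact high_dim m
  refine ⟨fun n hn => ⟨1, one_pos, fun U hU hvol => ?_⟩, h2⟩
  rcases Nat.eq_or_lt_of_le hn with rfl | hn2
  · exact dim_one U hU (by simpa using hvol)
  · obtain ⟨h, hemb, hball, hlen⟩ := h2 n hn2
    refine ⟨fun x => ⟨h x, by rw [mem_closedBall_zero_iff]; exact (hball x).le⟩, ?_, ?_⟩
    · exact (hemb.comp IsEmbedding.subtypeVal).codRestrict _ _
    · intro γ hγ hfin
      by_cases hc : ∃ s t, γ s ≠ γ t
      · obtain ⟨s, t, hst⟩ := hc
        have h1 := hlen (fun t => (γ t : EuclideanSpace ℝ (Fin n)))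
          (continuous_subtype_val.comp hγ) hfin ⟨s, t, fun hc => hst (Subtype.ext hc)⟩
        exact le_top.trans (le_of_eq h1.symm)
      · push Not at hc
        have : len γ = 0 := by
          refine eVariationOn.constant_on ?_
          rintro _ ⟨s, _, rfl⟩ _ ⟨t, _, rfl⟩
          exact hc s t
        rw [this]
        exact zero_le

end Pool.Agent.Results.MP_ecd4e3_gt.TopologicalSponge
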